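import Pool.Agent.H23.DM.TargetsQ
import Pool.Agent.H92.RC.ID
import Pool.Agent.H29.THC.CQ

/-!
# Board dmq_modules, module QN: close pairs have close local data
-/

set_option autoImplicit false

open NumberField NumberField.InfinitePlace
open scoped nonZeroDivisors

namespace Pool.Agent.H64.DMQ.QN

open Pool.Agent.H23.LB Pool.Agent.H23.LC Pool.Agent.H23.DM
open Pool.Agent.H25.HK (FI)
open Pool.Agent.H28.RC (idl)
open Pool.Agent.H29.DW (cpar PrG)
open Pool.Agent.H29.TC (Gn)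
open Pool.Agent.H31.SX (LK)
open Pool.Agent.H27.TM (cq)

variable {K : Type} [Field K] [NumberField K]

private lemma norm_ag (k : InfinitePlace K → ℤ) {x : K} (hx : x ≠ 0) : ‖ag k x‖ = 1 := by
  unfold ag
  rw [norm_prod]
  refine Finset.prod_eq_one fun v _ => ?_
  have hv : v x ≠ 0 := v.pos_iff.2 hx |>.ne'
  rw [norm_zpow, norm_div, Complex.norm_real, v.norm_embedding_eq, Real.norm_of_nonneg
    (apply_nonneg v x), div_self hv, one_zpow]

private lemma norm_ph (ν : InfinitePlace K → ℝ) (x : K) : ‖ph ν x‖ = 1 := by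
  unfold ph
  exact Complex.norm_exp_ofReal_mul_I _

private lemma conj_of_norm {z : ℂ} (h : ‖z‖ = 1) : z * (starRingEnd ℂ) z = 1 := by
  rw [Complex.mul_conj, Complex.normSq_eq_norm_sq, h]
  norm_num

/-- the generator `1` of the lattice `1` -/
private lemma gn_one {f : Ideal (𝓞 K)} (hf : f ≠ ⊥) : Gn f (1 : FI K) (1 : K) where
  mem := by
    rw [FractionalIdeal.mem_one_iff]
    exact ⟨1, map_one _⟩
  ne := one_ne_zero
  gen y hy := by
    obtain ⟨b, rfl⟩ := (FractionalIdeal.mem_one_iff _).1 hy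
    by_cases hb : b = 0
    · obtain ⟨c, hc, hc0⟩ := Submodule.exists_mem_ne_zero_of_ne_bot hf
      refine ⟨c, hc0, ?_⟩
      rw [hb, map_zero, zero_sub, mul_one, mul_one]
      exact (f : FI K).coeToSubmodule.neg_mem ((FractionalIdeal.mem_coeIdeal _).2 ⟨c, hc, rfl⟩)
    · refine ⟨b, hb, ?_⟩
      rw [mul_one, mul_one]
      have h0 : algebraMap (𝓞 K) K b - (b : K) = 0 := sub_self _
      rw [h0]
      exact (f : FI K).coeToSubmodule.zero_mem
  iff a j _ := by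
    rw [mul_one, mul_one, FractionalIdeal.mem_coeIdeal]
    constructor
    · rintro ⟨b, hb, he⟩
      rwa [← RingOfIntegers.ext he]
    · intro ha
      exact ⟨a, ha, rfl⟩

/-- the local component of a character at the numbers congruent to `1` modulo `l` -/
theorem loc {l k : Ideal (𝓞 K)} (hl : l ≠ ⊥) (hk : k ≠ ⊥)
    {η : HG K (l * k) → 𝓞 K ⧸ k → ℂ} (hη : LoC K l k η) {χ : HG K (l * k)}
    (hχ : PrG k χ) {a : 𝓞 K} (ha : a ≠ 0) (hal : a - 1 ∈ l) :
    χ.ψ (Ideal.span {a}) * (starRingEnd ℂ) (ag χ.k (a : K) * ph χ.ν (a : K)) =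
      η χ (Ideal.Quotient.mk k a) := by
  have hlk : l * k ≠ ⊥ := mul_ne_zero hl hk
  have hkk : k ≠ ⊥ := hk
  obtain ⟨hLC, h⟩ := hη χ hχ
  obtain ⟨c, -, hc2, hc3⟩ := h 1 1 one_ne_zero (gn_one hlk)
  have hcq := (Pool.Agent.H29.THC.pf_CQ K k (η χ) 1 1 hkk one_ne_zero (gn_one hkk)).1
  have hid : ∀ b : 𝓞 K, idl K 1 (b : K) = Ideal.span {b} := by
    intro b
    refine (Pool.Agent.H92.RC.pf_ID K 1 one_ne_zero).2.1 _ _ ?_
    rw [mul_one, FractionalIdeal.coeIdeal_span_singleton]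
  have hmem : ∀ b : 𝓞 K, (b : K) ∈ (1 : FI K) := by
    intro b
    rw [FractionalIdeal.mem_one_iff]
    exact ⟨b, rfl⟩
  have key : ∀ b : 𝓞 K, b ≠ 0 →
      χ.ψ (Ideal.span {b}) * (starRingEnd ℂ) (ag χ.k (b : K) * ph χ.ν (b : K)) =
        c b * η χ (Ideal.Quotient.mk k b) := by
    intro b hb
    have h1 := hc3 b (hmem b)
    have hb' : (b : K) ≠ 0 := by simpa using hb
    rw [hcq b b (by
      rw [mul_one, mul_one, sub_self]
      exact (k : FI K).coeToSubmodule.zero_mem)] at h1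
    unfold cg at h1
    rw [if_neg hb', hid] at h1
    rw [← h1, map_mul]
    ring
  have hone : c 1 = 1 := by
    have h1 := key 1 one_ne_zero
    rw [map_one (Ideal.Quotient.mk k), hLC.mc.one, mul_one, Ideal.span_singleton_one, χ.map_top,
      one_mul] at h1
    have h2 := χ.princ 1 one_ne_zero (by rw [sub_self]; exact Ideal.zero_mem _)
    rw [Ideal.span_singleton_one, χ.map_top] at h2
    rw [← h2, map_one] at h1
    rw [h1]
    simp
  have hca : c (a : K) = 1 := by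
    have h1 := hc2 1 (by simp) ((a : K) - 1) (by
      rw [mul_one, FractionalIdeal.mem_coeIdeal]
      exact ⟨a - 1, hal, by simp⟩)
    rw [add_sub_cancel, hone] at h1
    exact h1
  rw [key a ha, hca, one_mul]

/-- an element `≡ 1 + t` modulo `k` and `≡ 1` modulo `l κ` -/
private lemma exists_elt {R : Type} [CommRing R] [IsDomain R] {l k κ : Ideal R} (hl : l ≠ ⊥)
    (hk : k ≠ ⊥) (hlk : l ⊔ k = ⊤) (hkκ : k ≤ κ) {t : R} (ht : t ∈ κ) :
    ∃ a : R, a ≠ 0 ∧ a - 1 ∈ l * κ ∧ a - (1 + t) ∈ k := by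
  have h1 : (1 : R) ∈ l ⊔ k := by rw [hlk]; exact Submodule.mem_top
  obtain ⟨u, hu, w, hw, huw⟩ := Submodule.mem_sup.1 h1
  obtain ⟨x, hx, hx0⟩ := Submodule.exists_mem_ne_zero_of_ne_bot hl
  obtain ⟨y, hy, hy0⟩ := Submodule.exists_mem_ne_zero_of_ne_bot hk
  have h2 : ∃ z : R, z ∈ l * k ∧ 1 + u * t + z ≠ 0 := by
    by_cases h0 : 1 + u * t = 0
    · exact ⟨x * y, Ideal.mul_mem_mul hx hy, by rw [h0, zero_add]; exact mul_ne_zero hx0 hy0⟩
    · exact ⟨0, Ideal.zero_mem _, by rw [add_zero]; exact h0⟩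
  obtain ⟨z, hz, hz0⟩ := h2
  refine ⟨1 + u * t + z, hz0, ?_, ?_⟩
  · have h3 : 1 + u * t + z - 1 = u * t + z := by ring
    rw [h3]
    exact add_mem (Ideal.mul_mem_mul hu ht) (Ideal.mul_mono_right hkκ hz)
  · have h3 : 1 + u * t + z - (1 + t) = z - t * w := by linear_combination t * huw
    rw [h3]
    exact sub_mem ((Ideal.mul_le_right : l * k ≤ k) hz) (Ideal.mul_mem_left _ _ hw)

/-- differences of the frequencies -/
private theorem cq_sub {f : Ideal (𝓞 K)} (p q : HG K f × ℝ) (v : InfinitePlace K) :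
    ‖cq p v - cq q v‖ ≤
      2 * (|(p.2 - p.1.ν v) - (q.2 - q.1.ν v)| + |(p.1.k v : ℝ) - q.1.k v|) := by
  have h1 := abs_nonneg ((p.2 - p.1.ν v) - (q.2 - q.1.ν v))
  have h2 := abs_nonneg ((p.1.k v : ℝ) - q.1.k v)
  unfold cq cpar
  split_ifs with h
  · rw [← Complex.ofReal_sub, Complex.norm_real, Real.norm_eq_abs]
    linarith
  · have h3 : ((2 * (p.2 - p.1.ν v) : ℝ) : ℂ) + (p.1.k v : ℂ) * Complex.I -
        (((2 * (q.2 - q.1.ν v) : ℝ) : ℂ) + (q.1.k v : ℂ) * Complex.I) =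
        ((2 * ((p.2 - p.1.ν v) - (q.2 - q.1.ν v)) : ℝ) : ℂ) +
        (((p.1.k v : ℝ) - q.1.k v : ℝ) : ℂ) * Complex.I := by
      push_cast
      ring
    rw [h3]
    refine (norm_add_le _ _).trans ?_
    rw [Complex.norm_real, Real.norm_eq_abs, abs_mul, norm_mul, Complex.norm_I, mul_one,
      Complex.norm_real, Real.norm_eq_abs]
    norm_num
    linarith

/-- (QN) close pairs have close local data. -/
theorem pf_QN : D_QN := by
  intro K _ _ l k κ hlk hkκ η hη H p q hp hq hpq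
  refine ⟨fun t ht => ?_, fun v => ?_⟩
  · obtain ⟨a, ha0, ha1, ha2⟩ := exists_elt hlk.l_ne hlk.k_ne hlk.cop hkκ ht
    have hmk : Ideal.Quotient.mk k (1 + t) = Ideal.Quotient.mk k a :=
      (Ideal.Quotient.eq.2 ha2).symm
    have hal : a - 1 ∈ l := (Ideal.mul_le_left : l * κ ≤ l) ha1
    have hcl := hpq.2 a ha0 ha1
    have ha' : (a : K) ≠ 0 := by simpa using ha0
    rw [hmk, ← loc hlk.l_ne hlk.k_ne hη hp ha0 hal, ← loc hlk.l_ne hlk.k_ne hη hq ha0 hal]
    have n1 : (ag p.1.k (a : K) * ph p.1.ν (a : K)) *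
        (starRingEnd ℂ) (ag p.1.k (a : K) * ph p.1.ν (a : K)) = 1 :=
      conj_of_norm (by rw [norm_mul, norm_ag _ ha', norm_ph, one_mul])
    have n2 : (ag q.1.k (a : K) * ph q.1.ν (a : K)) *
        (starRingEnd ℂ) (ag q.1.k (a : K) * ph q.1.ν (a : K)) = 1 :=
      conj_of_norm (by rw [norm_mul, norm_ag _ ha', norm_ph, one_mul])
    generalize (starRingEnd ℂ) (ag p.1.k (a : K) * ph p.1.ν (a : K)) = x at n1 ⊢
    generalize (starRingEnd ℂ) (ag q.1.k (a : K) * ph q.1.ν (a : K)) = y at n2 ⊢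
    generalize ag p.1.k (a : K) * ph p.1.ν (a : K) = X at n1 hcl ⊢
    generalize ag q.1.k (a : K) * ph q.1.ν (a : K) = Y at n2 hcl ⊢
    linear_combination x * y * hcl - p.1.ψ (Ideal.span {a}) * x * n2 +
      q.1.ψ (Ideal.span {a}) * y * n1
  · refine (cq_sub p q v).trans ?_
    linarith [hpq.1 v]

end Pool.Agent.H64.DMQ.QN
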